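import Pool.Agent.H27.Rain1

set_option autoImplicit false

namespace Pool.Agent.Results.MP_1c393c_co.Brooms

open Pool.Agent.H27.Rain

def c0 (a b : ZMod 3 × ZMod 3) : Fin 8 :=
  Fin.ofNat 8 (4661227362115211859348760617588591659637432971165984261374064651472896 >>>
    (3 * (9 * (3 * a.1.val + a.2.val) + (3 * b.1.val + b.2.val))))

theorem c1 : ∀ a b, c0 a b = c0 b a := by decide +kernel

theorem c2 : ∀ v a b : ZMod 3 × ZMod 3, v.1 ≠ a.1 → v.1 ≠ b.1 → c0 v a = c0 v b → a = b := by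
  decide +kernel

theorem result (N : ℕ) : ∃ (W V : Type) (_ : Finite W) (_ : Finite V) (H : SimpleGraph W)
    (K : SimpleGraph V), N ≤ Nat.card W ∧ H.Connected ∧ Witness H K := by
  let P := ZMod 3 × ZMod (2 * N + 1)
  have hP : Fintype.card P = 3 * (2 * N + 1) := by simp [P]
  let _ : Encodable (ZMod 3 × P) := Fintype.toEncodable _
  let _ : Encodable (Fin 8 × ZMod (2 * N + 1)) := Fintype.toEncodable _
  let l0 : Fin (2 * Fintype.card P) := ⟨0, by omega⟩
  refine ⟨_, _, inferInstance, inferInstance, B l0, G P, by simp [hP]; omega, B_conn l0,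
    fun c hc h => ?_, lemB l0 (Fintype.card_fin _)⟩
  by_contra hn
  have h1 := lemC (hP ▸ Odd.mul (by decide) (odd_two_mul_add_one N)) c hc
    (lemA l0 (Fintype.card_fin _) c hc hn)
  let f : ZMod 3 × P → ZMod 3 × P → Fin 8 × ZMod (2 * N + 1) := fun u v =>
    (c0 (u.1, u.2.1) (v.1, v.2.1), u.2.2 + v.2.2)
  have hs : ∀ u v, f u v = f v u := fun u v => by simp only [f, c1 (u.1, u.2.1), add_comm]
  have h2 : chi (G P) ≤ _ := Nat.sInf_le ⟨_, pr_of (G P) f hs fun v a b ha hb e => by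
    have e1 := c2 (v.1, v.2.1) (a.1, a.2.1) (b.1, b.2.1) ha hb (congrArg Prod.fst e)
    exact Prod.ext (Prod.ext_iff.1 e1).1 (Prod.ext (Prod.ext_iff.1 e1).2
      (add_left_cancel (congrArg Prod.snd e))), rfl⟩
  have h3 := h2.trans (Set.ncard_le_ncard (t := Set.range Encodable.encode)
    (by rintro _ ⟨e, -, rfl⟩; exact ⟨_, rfl⟩) (Set.finite_range _))
  rw [Set.ncard_range_of_injective Encodable.encode_injective] at h3
  simp at h3
  omega

end Pool.Agent.Results.MP_1c393c_co.Brooms
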